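import Pool.Agent.U316.Ep.Ana6

/-!
# The minimising lattices in dimension three
-/

set_option autoImplicit false

namespace Pool.Agent.Results.MP_34eea4_nt.FccUnique

open Pool.Agent.U316.Ep Matrix

/-- In dimension three, for every real `s > 3 / 2`, the face-centred cubic lattice of covolume one is, up to
orthogonal maps, the unique global minimum of the Epstein zeta function among lattices of covolume one. -/
theorem result :
    ∀ s : ℝ, 3 / 2 < s → ∀ L : Set (EuclideanSpace ℝ (Fin 3)), CovOne L →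
      (Summable fun x : {x : EuclideanSpace ℝ (Fin 3) // x ∈ L ∧ x ≠ 0} => ‖x.1‖ ^ (-(2 * s))) ∧
      (∑' x : {x : EuclideanSpace ℝ (Fin 3) // x ∈ FCC ∧ x ≠ 0}, ‖x.1‖ ^ (-(2 * s)) ≤
        ∑' x : {x : EuclideanSpace ℝ (Fin 3) // x ∈ L ∧ x ≠ 0}, ‖x.1‖ ^ (-(2 * s))) ∧
      (∑' x : {x : EuclideanSpace ℝ (Fin 3) // x ∈ FCC ∧ x ≠ 0}, ‖x.1‖ ^ (-(2 * s)) =
        ∑' x : {x : EuclideanSpace ℝ (Fin 3) // x ∈ L ∧ x ≠ 0}, ‖x.1‖ ^ (-(2 * s)) ↔
        ∃ R : Matrix (Fin 3) (Fin 3) ℝ, Rᵀ * R = 1 ∧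
          L = {x | ∃ y ∈ FCC, ∀ i, x i = ∑ j, R i j * y j}) :=
  fun _ hs _ hL => fcc_min hL hs

end Pool.Agent.Results.MP_34eea4_nt.FccUnique
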